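import Pool.Agent.Helper59.HD.Anti

/-!
# Anti-blocking bodies with property `Sz(r)` (MP_541d70_co)
-/

namespace Pool.Agent.Results.MP_541d70_co.AntiBlocking

open Pool.Agent.Helper59.HD

/-- The vector obtained from `x` by replacing the coordinates outside `S` by zero. -/
noncomputable def restr {n : ℕ} (S : Finset (Fin n)) (x : EuclideanSpace ℝ (Fin n)) :
    EuclideanSpace ℝ (Fin n) :=
  WithLp.toLp 2 (fun i => if i ∈ S then x i else 0)

/-- Characterisation of `Sz(r)` for anti-blocking sets: `P` has `Sz(r)` if and only if it is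
determined by its sections (projections) by the coordinate subspaces of dimension at most `r`. -/
theorem result {n r : ℕ} (P : Set (EuclideanSpace ℝ (Fin n)))
    (hpos : ∀ x ∈ P, ∀ i, 0 ≤ x i)
    (hdown : ∀ x ∈ P, ∀ y : EuclideanSpace ℝ (Fin n), (∀ i, 0 ≤ y i ∧ y i ≤ x i) → y ∈ P) :
    Sz r P ↔ ∀ x : EuclideanSpace ℝ (Fin n), (∀ i, 0 ≤ x i) →
      (∀ S : Finset (Fin n), S.card ≤ r → restr S x ∈ P) → x ∈ P :=
  Pool.Agent.Helper59.HD.Anti.main P hpos hdown

end Pool.Agent.Results.MP_541d70_co.AntiBlocking
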