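import Pool.Agent.Helper59.HD.MainB

/-!
# MP_541d70_co: structure of centrally symmetric convex bodies with property `Sz(r)`
-/

namespace Pool.Agent.Results.MP_541d70_co.SymmetricStructure

open Pool.Agent.Helper59.HD

/-- A convex body that is symmetric about `c` and has property `Sz(r)` decomposes along a forest of
blocks of coordinates of sizes between `1` and `r`, the sizes dropping by at least two at each
step away from the root. -/
theorem result {n r : ℕ} (hr : 1 ≤ r) {F : Set (EuclideanSpace ℝ (Fin n))} (hc : IsCompact F)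
    (hconv : Convex ℝ F) (hint : (interior F).Nonempty) (c : EuclideanSpace ℝ (Fin n))
    (hsymm : ∀ x ∈ F, c + c - x ∈ F) (h : Sz r F) :
    ∃ (m : ℕ) (e : EuclideanSpace ℝ (Fin n) ≃ₗ[ℝ] (Fin n → ℝ)) (blk : Fin n → Fin m)
      (le : Fin m → Fin m → Prop), Forest le ∧ Decomp e blk le F ∧
      (∀ x, 1 ≤ bdim blk x ∧ bdim blk x ≤ r) ∧
      ∀ x y, le x y → x ≠ y → bdim blk y + 2 ≤ bdim blk x := by
  obtain ⟨m, e, blk, le, h1, h2, h3, h4⟩ :=
    decomp_of_symBody hr (symBody_of hc hconv hint c hsymm) (sz_recentre c h)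
  exact ⟨m, e, blk, le, h1, decomp_recentre c h2, h3, h4⟩

end Pool.Agent.Results.MP_541d70_co.SymmetricStructure
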