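import Pool.Agent.Helper59.HD5.Main

/-!
# MP_541d70_co: classification of centrally symmetric convex bodies with property `Sz(r)`, `r ≤ 4`
-/

namespace Pool.Agent.Results.MP_541d70_co.SymmetricUpToFour

open Pool.Agent.Helper59.HD Pool.Agent.Helper59.HD5

/-- For `1 ≤ r ≤ 4` and any `n`, a centrally symmetric convex body in `ℝⁿ` has property `Sz(r)` if
and only if in some linear coordinates, divided into groups, it is the intersection of the cylinders
over its projections to the cells, where each group has an admissible set of cells. -/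
theorem result {n r : ℕ} (hr : 1 ≤ r) (hr4 : r ≤ 4) {F : Set (EuclideanSpace ℝ (Fin n))}
    (hc : IsCompact F) (hconv : Convex ℝ F) (hint : (interior F).Nonempty)
    (c : EuclideanSpace ℝ (Fin n)) (hsymm : ∀ x ∈ F, c + c - x ∈ F) :
    Sz r F ↔ ∃ (m : ℕ) (e : EuclideanSpace ℝ (Fin n) ≃ₗ[ℝ] (Fin n → ℝ)) (grp : Fin n → Fin m)
      (Cl : Fin m → Set (Set (Fin n))), (∀ g, Piece r {i | grp i = g} (Cl g)) ∧ Cut e Cl F :=
  classify hr hr4 hc hconv hint c hsymm

end Pool.Agent.Results.MP_541d70_co.SymmetricUpToFour
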