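import Pool.Agent.Helper57.UC.Cor

set_option autoImplicit false

/-!
# MP_541d70_co: a uniform structure theorem for all convex bodies with property `Sz(r)`
-/

namespace Pool.Agent.Results.MP_541d70_co.UniformStructure

open Finset

/-- Property `Sz(r)`: a finite family of translates `F + v j` of `F`, every at most `r + 1` of
which have a common point, has a common point. -/
def Sz {Y : Type} [AddCommGroup Y] (r : ℕ) (F : Set Y) : Prop :=
  ∀ (s : ℕ) (v : Fin s → Y), (∀ J : Finset (Fin s), #J ≤ r + 1 → ∃ x, ∀ j ∈ J, x - v j ∈ F) →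
    ∃ x, ∀ j, x - v j ∈ F

/-- Every convex body `F` in `ℝ^n` with property `Sz(r)`, symmetric or not, is in suitable linear
coordinates the intersection of the cylinders over its projections to the coordinate subspaces of
dimension at most `e r! - 1`, for every `n`; more precisely there are at most `2 n` linear forms,
each in at most `e (r - 1)!` coordinates, such that `F` is the intersection of the cylinders over
its projections by at most `r` of these forms. -/
theorem result {n r : ℕ} (hr : 1 ≤ r) {F : Set (Fin n → ℝ)} (hc : IsCompact F)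
    (hconv : Convex ℝ F) (hint : (interior F).Nonempty) (h : Sz r F) :
    ∃ (e : (Fin n → ℝ) ≃ₗ[ℝ] (Fin n → ℝ)) (B : Finset (Fin n → ℝ)),
      (∀ x, (∀ I : Finset (Fin n), (#I : ℝ) + 1 ≤ Real.exp 1 * r.factorial →
        ∃ z ∈ F, ∀ i ∈ I, e z i = e x i) → x ∈ F) ∧
      #B ≤ 2 * n ∧
      (∀ b ∈ B, (#{i | b i ≠ 0} : ℝ) ≤ Real.exp 1 * (r - 1).factorial) ∧
      ∀ x, (∀ T ⊆ B, #T ≤ r → ∃ z ∈ F, ∀ b ∈ T, ∑ i, b i * e z i = ∑ i, b i * e x i) →
        x ∈ F :=
  Pool.Agent.Helper57.UC.closed' hr hc hconv hint h

end Pool.Agent.Results.MP_541d70_co.UniformStructure
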